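import Pool.Agent.H52.XR2.S2

/-!
# XR2, row AFI: isotropic position and affine invariance
-/

set_option autoImplicit false

open MeasureTheory Set Filter Topology Metric
open scoped Real ENNReal RealInnerProductSpace

namespace Pool.XR2

namespace AFIx

open Pool.Agent.H61.TX

/-- The affine map. -/
noncomputable def ff (A : E3 ≃L[ℝ] E3) (c x : E3) : E3 := A (x - c)

/-- Its inverse. -/
noncomputable def gg (A : E3 ≃L[ℝ] E3) (c y : E3) : E3 := A.symm y + c

lemma gf (A : E3 ≃L[ℝ] E3) (c x : E3) : gg A c (ff A c x) = x := by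
  simp [ff, gg]

lemma fg (A : E3 ≃L[ℝ] E3) (c y : E3) : ff A c (gg A c y) = y := by
  simp [ff, gg]

lemma cont_ff (A : E3 ≃L[ℝ] E3) (c : E3) : Continuous (ff A c) := by
  unfold ff; fun_prop

lemma cont_gg (A : E3 ≃L[ℝ] E3) (c : E3) : Continuous (gg A c) := by
  unfold gg; fun_prop

/-- As a homeomorphism. -/
noncomputable def hh (A : E3 ≃L[ℝ] E3) (c : E3) : E3 ≃ₜ E3 where
  toFun := ff A c
  invFun := gg A c
  left_inv := gf A c
  right_inv := fg A c
  continuous_toFun := cont_ff A c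
  continuous_invFun := cont_gg A c

lemma mem_image (A : E3 ≃L[ℝ] E3) (c : E3) (K : Set E3) (y : E3) :
    y ∈ ff A c '' K ↔ gg A c y ∈ K := by
  constructor
  · rintro ⟨x, hx, rfl⟩
    rw [gf]; exact hx
  · intro h
    exact ⟨_, h, fg A c y⟩

lemma body_image (A : E3 ≃L[ℝ] E3) (c : E3) (K : Set E3) (hK : IsConvexBody K) :
    IsConvexBody (ff A c '' K) := by
  obtain ⟨h1, h2, h3⟩ := hK
  refine ⟨?_, h2.image (cont_ff A c), ?_⟩
  · intro x hx y hy a b ha hb hab
    rw [mem_image] at hx hy ⊢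
    have h4 := h1 hx hy ha hb hab
    have h5 : gg A c (a • x + b • y) = a • gg A c x + b • gg A c y := by
      unfold gg
      rw [map_add, map_smul, map_smul, smul_add, smul_add]
      have : c = a • c + b • c := by rw [← add_smul, hab, one_smul]
      nth_rewrite 1 [this]
      abel
    rw [h5]; exact h4
  · have : ff A c '' interior K = interior (ff A c '' K) := (hh A c).image_interior K
    rw [← this]
    exact h3.image _

lemma body_pre (A : E3 ≃L[ℝ] E3) (c : E3) (K : Set E3) (hK : IsConvexBody K) :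
    IsConvexBody (gg A c '' K) := by
  have h : gg A c '' K = ff A.symm (-(A c)) '' K := by
    refine image_congr fun y _ => ?_
    simp [gg, ff]
  rw [h]
  exact body_image _ _ _ hK

lemma gg_line (A : E3 ≃L[ℝ] E3) (c x u : E3) (t : ℝ) :
    gg A c (x + t • u) = gg A c x + t • A.symm u := by
  unfold gg
  rw [map_add, map_smul]
  abel

/-- chords of the image -/
lemma chord_image (A : E3 ≃L[ℝ] E3) (c : E3) (K : Set E3) (u u' x : E3) (s : ℝ)
    (hu : A.symm u = s • u') :
    chord (ff A c '' K) u x = (fun t => s * t) ⁻¹' chord K u' (gg A c x) := by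
  ext t
  simp only [chord, mem_preimage, mem_ofPred_eq]
  rw [mem_image, gg_line, hu, smul_smul, mul_comm t s]

lemma xray_image (A : E3 ≃L[ℝ] E3) (c : E3) (K K' : Set E3) (u u' : sphere (0 : E3) 1) (s : ℝ)
    (hs : 0 < s) (hu : A.symm (u : E3) = s • (u' : E3)) (h : xray u' K' = xray u' K) :
    xray u (ff A c '' K') = xray u (ff A c '' K) := by
  funext x
  have h1 : ∀ L : Set E3, xray u (ff A c '' L) x =
      ENNReal.ofReal |s⁻¹| * volume (chord L (u' : E3) (gg A c x)) := by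
    intro L
    have h2 : xray u (ff A c '' L) x = volume (chord (ff A c '' L) (u : E3) (x : E3)) := rfl
    rw [h2, chord_image A c L (u : E3) (u' : E3) x s hu, Real.volume_preimage_mul_left hs.ne']
  rw [h1, h1, xray_line h]

lemma unver_image (A : E3 ≃L[ℝ] E3) (c : E3) (K : Set E3) (hK : Unver K) :
    Unver (ff A c '' K) := by
  obtain ⟨hb, hv⟩ := hK
  refine ⟨body_image A c K hb, fun u v huv hver => ?_⟩
  have hne : ∀ w : sphere (0 : E3) 1, A.symm (w : E3) ≠ 0 := by
    intro w h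
    have : (w : E3) = 0 := by simpa using h
    have h2 : ‖(w : E3)‖ = 1 := by simp
    rw [this, norm_zero] at h2
    exact zero_ne_one h2
  have hex : ∀ w : sphere (0 : E3) 1, ∃ (w' : sphere (0 : E3) 1) (s : ℝ), 0 < s ∧
      A.symm (w : E3) = s • (w' : E3) := by
    intro w
    have h0 := norm_pos_iff.2 (hne w)
    refine ⟨⟨‖A.symm (w : E3)‖⁻¹ • A.symm (w : E3), ?_⟩, ‖A.symm (w : E3)‖, h0, ?_⟩
    · rw [mem_sphere_zero_iff_norm, norm_smul, norm_inv, norm_norm, inv_mul_cancel₀ h0.ne']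
    · simp only
      rw [smul_smul, mul_inv_cancel₀ h0.ne', one_smul]
  obtain ⟨u', s, hs, hu⟩ := hex u
  obtain ⟨v', t, ht, hvv⟩ := hex v
  have hlin : LinearIndependent ℝ ![(u' : E3), (v' : E3)] := by
    rw [LinearIndependent.pair_iff] at huv ⊢
    intro a b hab
    have h1 : A ((a / s) • A.symm (u : E3) + (b / t) • A.symm (v : E3)) = 0 := by
      rw [hu, hvv, smul_smul, smul_smul, div_mul_cancel₀ _ hs.ne', div_mul_cancel₀ _ ht.ne', hab,
        map_zero]
    rw [map_add, map_smul, map_smul, ContinuousLinearEquiv.apply_symm_apply,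
      ContinuousLinearEquiv.apply_symm_apply] at h1
    obtain ⟨h2, h3⟩ := huv _ _ h1
    exact ⟨(div_eq_zero_iff.1 h2).resolve_right hs.ne', (div_eq_zero_iff.1 h3).resolve_right ht.ne'⟩
  refine hv u' v' hlin fun K' hK' h1 h2 => ?_
  have h3 := hver (ff A c '' K') (body_image A c K' hK') (xray_image A c K K' u u' s hs hu h1)
    (xray_image A c K K' v v' t ht hvv h2)
  have hinj : Function.Injective (ff A c) := (hh A c).injective
  exact hinj.image_injective h3

/-! ### isotropic position -/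

/-- The moment operator. -/
noncomputable def SS (K : Set E3) (hK : IsCompact K) (c : E3) : E3 →ₗ[ℝ] E3 where
  toFun ξ := ∫ x in K, ⟪ξ, x - c⟫ • (x - c)
  map_add' ξ η := by
    have hint : ∀ ζ : E3, IntegrableOn (fun x => ⟪ζ, x - c⟫ • (x - c)) K := fun ζ =>
      ContinuousOn.integrableOn_compact hK (by fun_prop)
    rw [← integral_add (hint ξ) (hint η)]
    congr 1
    funext x
    rw [inner_add_left, add_smul]
  map_smul' a ξ := by
    rw [RingHom.id_apply, ← integral_smul]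
    congr 1
    funext x
    rw [real_inner_smul_left, mul_smul]

lemma SS_inner (K : Set E3) (hK : IsCompact K) (c ξ η : E3) :
    ⟪SS K hK c ξ, η⟫ = ∫ x in K, ⟪ξ, x - c⟫ * ⟪η, x - c⟫ := by
  have hint : IntegrableOn (fun x => ⟪ξ, x - c⟫ • (x - c)) K :=
    ContinuousOn.integrableOn_compact hK (by fun_prop)
  have h1 : ⟪η, SS K hK c ξ⟫ = ∫ x in K, ⟪η, ⟪ξ, x - c⟫ • (x - c)⟫ :=
    (integral_inner hint η).symm
  rw [real_inner_comm, h1]
  congr 1
  funext x
  rw [real_inner_smul_right]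

lemma SS_symm (K : Set E3) (hK : IsCompact K) (c : E3) : (SS K hK c).IsSymmetric := by
  intro ξ η
  rw [SS_inner, real_inner_comm, SS_inner]
  congr 1
  funext x
  ring

lemma SS_pos (K : Set E3) (hK : IsConvexBody K) (c ξ : E3) (hξ : ξ ≠ 0) :
    0 < ⟪SS K hK.2.1 c ξ, ξ⟫ := by
  rw [SS_inner]
  have hcont : Continuous fun x : E3 => ⟪ξ, x - c⟫ * ⟪ξ, x - c⟫ := by fun_prop
  have hint : IntegrableOn (fun x => ⟪ξ, x - c⟫ * ⟪ξ, x - c⟫) K :=
    hcont.continuousOn.integrableOn_compact hK.2.1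
  rw [setIntegral_pos_iff_support_of_nonneg_ae
    (Filter.Eventually.of_forall fun x => mul_self_nonneg _) hint]
  have hopen : IsOpen (Function.support (fun x : E3 => ⟪ξ, x - c⟫ * ⟪ξ, x - c⟫) ∩ interior K) :=
    (hcont.isOpen_support).inter isOpen_interior
  have hne : (Function.support (fun x : E3 => ⟪ξ, x - c⟫ * ⟪ξ, x - c⟫) ∩ interior K).Nonempty := by
    obtain ⟨x₀, hx₀⟩ := hK.2.2
    by_cases h0 : ⟪ξ, x₀ - c⟫ = 0
    · have h1 : Tendsto (fun ε : ℝ => x₀ + ε • ξ) (𝓝 0) (𝓝 x₀) := by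
        have : Continuous fun ε : ℝ => x₀ + ε • ξ := by fun_prop
        simpa using this.tendsto 0
      have h2 : ∀ᶠ ε : ℝ in 𝓝 0, x₀ + ε • ξ ∈ interior K :=
        h1 (isOpen_interior.mem_nhds hx₀)
      have h3 : ∀ᶠ ε : ℝ in 𝓝[≠] 0, x₀ + ε • ξ ∈ interior K ∧ ε ≠ 0 :=
        (h2.filter_mono nhdsWithin_le_nhds).and self_mem_nhdsWithin
      obtain ⟨ε, h4, h5⟩ := h3.exists
      refine ⟨x₀ + ε • ξ, ?_, h4⟩
      rw [Function.mem_support]
      have h6 : ⟪ξ, x₀ + ε • ξ - c⟫ = ε * ⟪ξ, ξ⟫ := by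
        have : x₀ + ε • ξ - c = (x₀ - c) + ε • ξ := by abel
        rw [this, inner_add_right, h0, real_inner_smul_right, zero_add]
      rw [h6]
      have h7 : (⟪ξ, ξ⟫ : ℝ) ≠ 0 := fun h => hξ (inner_self_eq_zero.1 h)
      exact mul_self_ne_zero.2 (mul_ne_zero h5 h7)
    · exact ⟨x₀, by rw [Function.mem_support]; exact mul_self_ne_zero.2 h0, hx₀⟩
  refine lt_of_lt_of_le (hopen.measure_pos volume hne) (measure_mono ?_)
  exact inter_subset_inter_right _ interior_subset

/-- Diagonal maps. -/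
noncomputable def DD (b : OrthonormalBasis (Fin 3) ℝ E3) (a : Fin 3 → ℝ) : E3 →ₗ[ℝ] E3 where
  toFun ξ := ∑ i, (a i * ⟪b i, ξ⟫) • b i
  map_add' ξ η := by
    rw [← Finset.sum_add_distrib]
    refine Finset.sum_congr rfl fun i _ => ?_
    rw [inner_add_right, mul_add, add_smul]
  map_smul' r ξ := by
    rw [RingHom.id_apply, Finset.smul_sum]
    refine Finset.sum_congr rfl fun i _ => ?_
    rw [real_inner_smul_right, smul_smul]
    congr 1
    ring

lemma DD_inner (b : OrthonormalBasis (Fin 3) ℝ E3) (a : Fin 3 → ℝ) (ξ : E3) (j : Fin 3) :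
    ⟪b j, DD b a ξ⟫ = a j * ⟪b j, ξ⟫ := by
  show ⟪b j, ∑ i, (a i * ⟪b i, ξ⟫) • b i⟫ = _
  rw [inner_sum, Finset.sum_eq_single j]
  · rw [real_inner_smul_right, real_inner_self_eq_norm_sq, b.norm_eq_one]
    ring
  · intro i _ hij
    rw [real_inner_smul_right, b.inner_eq_zero (Ne.symm hij), mul_zero]
  · intro h
    exact absurd (Finset.mem_univ j) h

lemma DD_inv (b : OrthonormalBasis (Fin 3) ℝ E3) (a a' : Fin 3 → ℝ) (h : ∀ i, a' i * a i = 1)
    (ξ : E3) : DD b a' (DD b a ξ) = ξ := by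
  show ∑ i, (a' i * ⟪b i, DD b a ξ⟫) • b i = ξ
  have h1 : ∀ i, (a' i * ⟪b i, DD b a ξ⟫) • b i = ⟪b i, ξ⟫ • b i := by
    intro i
    rw [DD_inner, ← mul_assoc, h, one_mul]
  rw [Finset.sum_congr rfl fun i _ => h1 i]
  exact b.sum_repr' ξ

lemma DD_symm (b : OrthonormalBasis (Fin 3) ℝ E3) (a : Fin 3 → ℝ) (ξ η : E3) :
    ⟪ξ, DD b a η⟫ = ⟪DD b a ξ, η⟫ := by
  show ⟪ξ, ∑ i, (a i * ⟪b i, η⟫) • b i⟫ = ⟪∑ i, (a i * ⟪b i, ξ⟫) • b i, η⟫
  rw [inner_sum, sum_inner]
  refine Finset.sum_congr rfl fun i _ => ?_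
  rw [real_inner_smul_right, real_inner_smul_left, real_inner_comm ξ (b i)]
  ring

/-- The diagonal map as an equivalence. -/
noncomputable def AA (b : OrthonormalBasis (Fin 3) ℝ E3) (a a' : Fin 3 → ℝ)
    (h : ∀ i, a' i * a i = 1) : E3 ≃L[ℝ] E3 :=
  LinearEquiv.toContinuousLinearEquiv
    { DD b a with
      invFun := DD b a'
      left_inv := DD_inv b a a' h
      right_inv := DD_inv b a' a fun i => by rw [mul_comm]; exact h i }

lemma AA_apply (b : OrthonormalBasis (Fin 3) ℝ E3) (a a' : Fin 3 → ℝ)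
    (h : ∀ i, a' i * a i = 1) (ξ : E3) : AA b a a' h ξ = DD b a ξ := rfl

/-- Change of variables. -/
lemma int_image {F : Type*} [NormedAddCommGroup F] [NormedSpace ℝ F] (A : E3 ≃L[ℝ] E3) (c : E3)
    (K : Set E3) (hK : IsCompact K) (g : E3 → F) :
    ∫ y in ff A c '' K, g y = |(A : E3 →L[ℝ] E3).det| • ∫ x in K, g (ff A c x) := by
  have hinj : InjOn (ff A c) K := (hh A c).injective.injOn
  rw [integral_image_eq_integral_abs_det_fderiv_smul (f := ff A c)
    (f' := fun _ => (A : E3 →L[ℝ] E3)) volume hK.isClosed.measurableSet ?_ hinj]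
  · rw [← integral_smul]
  · intro x _
    have h1 : HasFDerivAt (fun x : E3 => A (x - c)) (A : E3 →L[ℝ] E3) x := by
      have h2 : HasFDerivAt (fun x : E3 => x - c) (ContinuousLinearMap.id ℝ E3) x :=
        (hasFDerivAt_id x).sub_const c
      have h3 := (A : E3 →L[ℝ] E3).hasFDerivAt.comp x h2
      rwa [ContinuousLinearMap.comp_id] at h3
    exact h1.hasFDerivWithinAt

theorem afi : AFIStmt := by
  intro K hK
  have hV : (0 : ℝ) < volume.real K := by
    have h1 : 0 < volume (interior K) := isOpen_interior.measure_pos volume hK.2.2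
    exact ENNReal.toReal_pos (lt_of_lt_of_le h1 (measure_mono interior_subset)).ne'
      hK.2.1.measure_lt_top.ne
  set c : E3 := (volume.real K)⁻¹ • ∫ x in K, x with hc
  set S := SS K hK.2.1 c with hS
  have hsym : S.IsSymmetric := SS_symm K hK.2.1 c
  have hfin : Module.finrank ℝ E3 = 3 := by simp
  set b := hsym.eigenvectorBasis hfin with hb
  set l := hsym.eigenvalues hfin with hl
  have happ : ∀ i, S (b i) = l i • b i := fun i => hsym.apply_eigenvectorBasis hfin i
  have hpos : ∀ i, 0 < l i := by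
    intro i
    have h1 := SS_pos K hK c (b i) (by
      intro h
      have := b.norm_eq_one i
      rw [h, norm_zero] at this
      exact zero_ne_one this)
    rw [← hS, happ, real_inner_smul_left, real_inner_self_eq_norm_sq, b.norm_eq_one] at h1
    simpa using h1
  have hsq : ∀ i, Real.sqrt (l i) * (Real.sqrt (l i))⁻¹ = 1 := fun i =>
    mul_inv_cancel₀ (Real.sqrt_pos.2 (hpos i)).ne'
  set A := AA b (fun i => (Real.sqrt (l i))⁻¹) (fun i => Real.sqrt (l i)) hsq with hA
  refine ⟨ff A c '' K, body_image A c K hK, ⟨?_, ?_⟩, unver_image A c K⟩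
  · rw [int_image A c K hK.2.1]
    have h1 : ∫ x in K, ff A c x = A (∫ x in K, (x - c)) := by
      have hint : IntegrableOn (fun x : E3 => x - c) K :=
        ContinuousOn.integrableOn_compact hK.2.1 (by fun_prop)
      exact (A : E3 →L[ℝ] E3).integral_comp_comm hint
    have h2 : ∫ x in K, (x - c) = (0 : E3) := by
      have hi1 : IntegrableOn (fun x : E3 => x) K :=
        ContinuousOn.integrableOn_compact hK.2.1 (by fun_prop)
      have hi2 : IntegrableOn (fun _ : E3 => c) K :=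
        ContinuousOn.integrableOn_compact hK.2.1 (by fun_prop)
      rw [integral_sub hi1 hi2, setIntegral_const, hc, smul_smul, mul_inv_cancel₀ hV.ne', one_smul,
        sub_self]
    rw [h1, h2, map_zero, smul_zero]
  · refine ⟨|(A : E3 →L[ℝ] E3).det|, ?_, fun ξ => ?_⟩
    · rw [abs_pos]
      have h1 : (A : E3 →L[ℝ] E3).det = LinearMap.det (A.toLinearEquiv : E3 →ₗ[ℝ] E3) := rfl
      rw [h1]
      exact (LinearEquiv.isUnit_det' A.toLinearEquiv).ne_zero
    · rw [int_image A c K hK.2.1 (fun y => ⟪ξ, y⟫ ^ 2), smul_eq_mul]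
      congr 1
      have h1 : ∀ x, ⟪ξ, ff A c x⟫ ^ 2 =
          ⟪DD b (fun i => (Real.sqrt (l i))⁻¹) ξ, x - c⟫ *
            ⟪DD b (fun i => (Real.sqrt (l i))⁻¹) ξ, x - c⟫ := by
        intro x
        have h2 : ff A c x = DD b (fun i => (Real.sqrt (l i))⁻¹) (x - c) := rfl
        rw [h2, DD_symm, sq]
      have h3 : ∫ x in K, ⟪ξ, ff A c x⟫ ^ 2 =
          ⟪S (DD b (fun i => (Real.sqrt (l i))⁻¹) ξ),
            DD b (fun i => (Real.sqrt (l i))⁻¹) ξ⟫ := by
        rw [hS, SS_inner]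
        exact integral_congr_ae (Filter.Eventually.of_forall h1)
      rw [h3]
      set η := DD b (fun i => (Real.sqrt (l i))⁻¹) ξ with hη
      have h4 : S η = ∑ i, (l i * ⟪b i, η⟫) • b i := by
        conv_lhs => rw [← b.sum_repr' η]
        rw [map_sum]
        refine Finset.sum_congr rfl fun i _ => ?_
        rw [map_smul, happ, smul_smul, mul_comm]
      rw [h4, sum_inner]
      have h5 : ∀ i, ⟪(l i * ⟪b i, η⟫) • b i, η⟫ = ⟪b i, ξ⟫ ^ 2 := by
        intro i
        rw [real_inner_smul_left, hη, DD_inner]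
        have h6 := Real.sq_sqrt (hpos i).le
        have h7 := (Real.sqrt_pos.2 (hpos i)).ne'
        field_simp
        nlinarith
      rw [Finset.sum_congr rfl fun i _ => h5 i]
      have h8 := b.sum_sq_norm_inner_right ξ
      rw [← h8]
      refine Finset.sum_congr rfl fun i _ => ?_
      rw [Real.norm_eq_abs, sq_abs]

end AFIx

theorem t_afi : AFIStmt := AFIx.afi

end Pool.XR2
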