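import Pool.Agent.H52.XR2.S1

/-!
# XR2, rows LNA, LNB: invariance of the rotation number under affine maps
-/

set_option autoImplicit false

open MeasureTheory Set Filter Topology Metric
open scoped Real ENNReal

namespace Pool.XR2

open Pool.Agent.H45.XR

namespace LNx

/-- `A` maps lines parallel to `e φ` to lines parallel to `e φ'` and preserves the orientation. -/
structure AffP (A : ℂ ≃ₜ ℂ) (φ φ' : ℝ) : Prop where
  tcle : ∀ z w, tc φ z ≤ tc φ w ↔ tc φ' (A z) ≤ tc φ' (A w)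
  line : ∀ (z : ℂ) (s : ℝ), 0 < s → ∃ s' : ℝ, 0 < s' ∧ A (z + s * e φ) = A z + s' * e φ'

/-- The angle map. -/
noncomputable def GG (A : ℂ ≃ₜ ℂ) (C : Set ℂ) (θ : ℝ) : ℝ := θ + (A (pt C θ) / e θ).arg

lemma pt_cont {C : Set ℂ} (hC : Body C) : Continuous (pt C) := by
  obtain ⟨L, hL⟩ := pt_lipschitz hC
  exact hL.continuous

lemma cont_GG {A : ℂ ≃ₜ ℂ} {C : Set ℂ} (hC : Body C)
    (hs : ∀ θ, A (pt C θ) / e θ ∈ Complex.slitPlane) : Continuous (GG A C) := by
  unfold GG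
  refine continuous_id.add (continuous_iff_continuousAt.2 fun θ => ?_)
  have h1 : Continuous fun θ => A (pt C θ) / e θ :=
    (A.continuous.comp (pt_cont hC)).div continuous_e fun θ => e_ne_zero θ
  have h2 : ContinuousAt (fun θ => A (pt C θ) / e θ) θ := h1.continuousAt
  exact ContinuousAt.comp (f := fun θ => A (pt C θ) / e θ) (Complex.continuousAt_arg (hs θ)) h2

lemma per_GG (A : ℂ ≃ₜ ℂ) (C : Set ℂ) (θ : ℝ) : GG A C (θ + 2 * π) = GG A C θ + 2 * π := by
  unfold GG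
  rw [pt_periodic, e_add_two_pi]
  ring

lemma GG_norm (A : ℂ ≃ₜ ℂ) (C : Set ℂ) (θ : ℝ) :
    A (pt C θ) = (‖A (pt C θ)‖ : ℂ) * e (GG A C θ) := by
  have h2 : (‖A (pt C θ) / e θ‖ : ℂ) * e ((A (pt C θ) / e θ).arg) = A (pt C θ) / e θ :=
    Complex.norm_mul_exp_arg_mul_I _
  unfold GG
  rw [e_add]
  rw [norm_div, norm_e, div_one] at h2
  have h3 : (‖A (pt C θ)‖ : ℂ) * (e θ * e ((A (pt C θ) / e θ).arg)) =
      e θ * ((‖A (pt C θ)‖ : ℂ) * e ((A (pt C θ) / e θ).arg)) := by ring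
  rw [h3, h2, mul_div_cancel₀ _ (e_ne_zero θ)]

lemma GG_pt {A : ℂ ≃ₜ ℂ} {C : Set ℂ} (hC : Body C) (hC' : Body (A '' C)) (θ : ℝ) :
    pt (A '' C) (GG A C θ) = A (pt C θ) := by
  have h1 := GG_norm A C θ
  have h2 : A (pt C θ) ∈ A '' C := ⟨_, pt_mem hC θ, rfl⟩
  have h3 : A (pt C θ) ∉ interior (A '' C) := by
    rw [← A.image_interior]
    rintro ⟨w, hw, hw'⟩
    exact pt_notMem_interior hC θ (A.injective hw' ▸ hw)
  rw [h1, mem_iff_le_rad hC' _ (norm_nonneg _)] at h2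
  rw [h1, mem_interior_iff_lt_rad hC' _ (norm_nonneg _), not_lt] at h3
  have h4 : rad (A '' C) (GG A C θ) = ‖A (pt C θ)‖ := le_antisymm h3 h2
  rw [pt, h4, ← h1]

lemma per_int {G : ℝ → ℝ} (hG : ∀ x, G (x + 2 * π) = G x + 2 * π) (x : ℝ) (k : ℤ) :
    G (x + k * (2 * π)) = G x + k * (2 * π) := by
  induction k using Int.induction_on with
  | zero => simp
  | succ n ih =>
    have h1 : x + ((n : ℤ) + 1 : ℤ) * (2 * π) = x + (n : ℤ) * (2 * π) + 2 * π := by
      push_cast; ring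
    rw [h1, hG, ih]
    push_cast; ring
  | pred n ih =>
    have h1 : x + (-(n : ℤ) : ℤ) * (2 * π) = x + (-(n : ℤ) - 1 : ℤ) * (2 * π) + 2 * π := by
      push_cast; ring
    rw [h1, hG] at ih
    have h2 : ((-(n : ℤ) - 1 : ℤ) : ℝ) = ((-(n : ℤ) : ℤ) : ℝ) - 1 := by push_cast; ring
    linear_combination ih - 2 * π * h2

lemma anti_int {F : ℝ → ℝ} (hF : ∀ x, F (x + 2 * π) = F x - 2 * π) (x : ℝ) (k : ℤ) :
    F (x + k * (2 * π)) = F x - k * (2 * π) := by
  induction k using Int.induction_on with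
  | zero => simp
  | succ n ih =>
    have h1 : x + ((n : ℤ) + 1 : ℤ) * (2 * π) = x + (n : ℤ) * (2 * π) + 2 * π := by
      push_cast; ring
    rw [h1, hF, ih]
    push_cast; ring
  | pred n ih =>
    have h1 : x + (-(n : ℤ) : ℤ) * (2 * π) = x + (-(n : ℤ) - 1 : ℤ) * (2 * π) + 2 * π := by
      push_cast; ring
    rw [h1, hF] at ih
    have h2 : ((-(n : ℤ) - 1 : ℤ) : ℝ) = ((-(n : ℤ) : ℤ) : ℝ) - 1 := by push_cast; ring
    linear_combination ih + 2 * π * h2

lemma GG_inj {A : ℂ ≃ₜ ℂ} {C : Set ℂ} (hC : Body C) (hC' : Body (A '' C)) :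
    Function.Injective (GG A C) := by
  intro a b hab
  have h1 : pt C a = pt C b := by
    apply A.injective
    rw [← GG_pt hC hC' a, ← GG_pt hC hC' b, hab]
  obtain ⟨n, hn⟩ := B3.pt_eq hC h1
  rw [hn, per_int (per_GG A C)] at hab
  have h2 : (n : ℝ) * (2 * π) = 0 := by linarith
  rw [hn, h2, add_zero]

lemma GG_mono {A : ℂ ≃ₜ ℂ} {C : Set ℂ} (hC : Body C) (hC' : Body (A '' C))
    (hs : ∀ θ, A (pt C θ) / e θ ∈ Complex.slitPlane) : StrictMono (GG A C) := by
  rcases (cont_GG hC hs).strictMono_of_inj (GG_inj hC hC') with h | h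
  · exact h
  · exfalso
    have h1 := h (show (0 : ℝ) < 0 + 2 * π by linarith [Real.pi_pos])
    rw [per_GG] at h1
    linarith [Real.pi_pos]

lemma GG_surj {A : ℂ ≃ₜ ℂ} {C : Set ℂ} (hC : Body C)
    (hs : ∀ θ, A (pt C θ) / e θ ∈ Complex.slitPlane) : Function.Surjective (GG A C) := by
  refine (cont_GG hC hs).surjective ?_ ?_
  · refine tendsto_atTop_mono (f := fun θ => θ + (-π)) (fun θ => ?_)
      (tendsto_atTop_add_const_right _ _ tendsto_id)
    have := Complex.neg_pi_lt_arg (A (pt C θ) / e θ)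
    unfold GG
    linarith
  · have h1 : Tendsto (fun θ : ℝ => θ + π) atBot atBot :=
      tendsto_atBot_add_const_right _ _ tendsto_id
    refine tendsto_atBot_mono (fun θ => ?_) h1
    have := Complex.arg_le_pi (A (pt C θ) / e θ)
    unfold GG
    linarith

/-- The angle map as an order isomorphism. -/
noncomputable def GI {A : ℂ ≃ₜ ℂ} {C : Set ℂ} (hC : Body C) (hC' : Body (A '' C))
    (hs : ∀ θ, A (pt C θ) / e θ ∈ Complex.slitPlane) : ℝ ≃o ℝ :=
  StrictMono.orderIsoOfSurjective _ (GG_mono hC hC' hs) (GG_surj hC hs)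

lemma GI_pt {A : ℂ ≃ₜ ℂ} {C : Set ℂ} (hC : Body C) (hC' : Body (A '' C))
    (hs : ∀ θ, A (pt C θ) / e θ ∈ Complex.slitPlane) (θ : ℝ) :
    pt (A '' C) (GI hC hC' hs θ) = A (pt C θ) := GG_pt hC hC' θ

lemma GI_per {A : ℂ ≃ₜ ℂ} {C : Set ℂ} (hC : Body C) (hC' : Body (A '' C))
    (hs : ∀ θ, A (pt C θ) / e θ ∈ Complex.slitPlane) (θ : ℝ) :
    GI hC hC' hs (θ + 2 * π) = GI hC hC' hs θ + 2 * π := per_GG A C θ

lemma noSeg_image {A : ℂ ≃ₜ ℂ} {C : Set ℂ} {φ φ' : ℝ} (hA : AffP A φ φ') (h : NoSeg C φ) :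
    NoSeg (A '' C) φ' := by
  rintro _ ⟨p, hp, rfl⟩ _ ⟨q, hq, rfl⟩ hne ht
  have h1 : tc φ p = tc φ q :=
    le_antisymm ((hA.tcle p q).2 ht.le) ((hA.tcle q p).2 ht.ge)
  obtain ⟨z, hz, hz'⟩ := h p hp q hq (fun h => hne (by rw [h])) h1
  refine ⟨A z, ?_, le_antisymm ((hA.tcle z p).1 hz'.le) ((hA.tcle p z).1 hz'.ge)⟩
  rw [← A.image_interior]
  exact ⟨z, hz, rfl⟩

/-- numbers `r` with `sin (r - φ) < 0` -/
lemma neg_window {r φ : ℝ} (h : Real.sin (r - φ) < 0) :
    ∃ k : ℤ, φ - π < r - k * (2 * π) ∧ r - k * (2 * π) < φ := by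
  obtain ⟨k, hk⟩ : ∃ k : ℤ, r - k * (2 * π) ∈ Ico (φ - π) (φ - π + 2 * π) := by
    refine ⟨toIcoDiv Real.two_pi_pos (φ - π) r, ?_⟩
    have := sub_toIcoDiv_zsmul_mem_Ico Real.two_pi_pos (φ - π) r
    simpa [zsmul_eq_mul] using this
  refine ⟨k, ?_, ?_⟩
  · rcases eq_or_lt_of_le hk.1 with h1 | h1
    · exfalso
      have h2 : r - φ = -π + k * (2 * π) := by linarith
      rw [h2, Real.sin_add_int_mul_two_pi, Real.sin_neg, Real.sin_pi] at h
      simp at h
    · exact h1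
  · by_contra hc
    push Not at hc
    have h2 : r - φ = (r - k * (2 * π) - φ) + k * (2 * π) := by ring
    rw [h2, Real.sin_add_int_mul_two_pi] at h
    have h3 := Real.sin_nonneg_of_nonneg_of_le_pi (x := r - k * (2 * π) - φ) (by linarith)
      (by linarith [hk.2])
    linarith

/-- numbers `l` with `sin (l - φ) > 0` in `(φ - π, φ + 2π)` -/
lemma pos_window {l φ : ℝ} (h : 0 < Real.sin (l - φ)) (h1 : φ - π < l) (h2 : l < φ + 2 * π) :
    φ < l ∧ l < φ + π := by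
  constructor
  · by_contra hc
    push Not at hc
    have h3 := Real.sin_nonneg_of_nonneg_of_le_pi (x := φ - l) (by linarith) (by linarith)
    have h4 : Real.sin (l - φ) = - Real.sin (φ - l) := by
      rw [← Real.sin_neg]; congr 1; ring
    linarith
  · by_contra hc
    push Not at hc
    have h3 := Real.sin_nonneg_of_nonneg_of_le_pi (x := l - φ - π) (by linarith) (by linarith)
    rw [Real.sin_sub_pi] at h3
    linarith

/-- The flip of the image. -/
theorem core (hFLX : FLXStmt) (hFLB : FLBStmt) {A : ℂ ≃ₜ ℂ} {C : Set ℂ} (hC : Body C)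
    (hC' : Body (A '' C)) (hs : ∀ θ, A (pt C θ) / e θ ∈ Complex.slitPlane) {φ φ' : ℝ}
    (hA : AffP A φ φ') (hn : NoSeg C φ) :
    ∃ k : ℤ, ∀ x, fl (A '' C) φ' (GI hC hC' hs x) =
      GI hC hC' hs (fl C φ x) - (2 * k : ℤ) * (2 * π) := by
  have hπ := Real.pi_pos
  have hn' : NoSeg (A '' C) φ' := noSeg_image hA hn
  have hF := (hFLX C φ hC hn).1
  have hL := (hFLX (A '' C) φ' hC' hn').1
  have hFc := (hFLB C φ hC hn).1
  have hLc := (hFLB (A '' C) φ' hC' hn').1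
  set F := fl C φ with hFd
  set L := fl (A '' C) φ' with hLd
  set G := GI hC hC' hs with hG
  have hGc : Continuous G := G.continuous
  have hGper : ∀ x, G (x + 2 * π) = G x + 2 * π := GI_per hC hC' hs
  have hGpt : ∀ x, pt (A '' C) (G x) = A (pt C x) := GI_pt hC hC' hs
  have hGi : ∀ x (j : ℤ), G (x + j * (2 * π)) = G x + j * (2 * π) := fun x j => per_int hGper x j
  have hLi : ∀ x (j : ℤ), L (x + j * (2 * π)) = L x - j * (2 * π) := fun x j => anti_int hL.per x j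
  have hFi : ∀ x (j : ℤ), F (x + j * (2 * π)) = F x - j * (2 * π) := fun x j => anti_int hF.per x j
  obtain ⟨r, hr1, hr2, hFr, hrmin⟩ := hF.rt
  obtain ⟨l, hl1, hl2, hFl, hlmax⟩ := hF.lt
  have hneg : Real.sin (G r - φ') < 0 := by
    have h1 : tc φ' (pt (A '' C) (G r)) ≤ tc φ' (pt (A '' C) (φ' - π / 2)) := by
      obtain ⟨w, hw, hw'⟩ := pt_mem hC' (φ' - π / 2)
      rw [← hw', hGpt]
      exact (hA.tcle _ _).1 (hrmin w hw)
    rw [tc_pt, tc_pt] at h1
    have h2 : Real.sin (φ' - π / 2 - φ') = -1 := by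
      have : φ' - π / 2 - φ' = -(π / 2) := by ring
      rw [this, Real.sin_neg, Real.sin_pi_div_two]
    rw [h2] at h1
    have h3 := rad_pos hC' (φ' - π / 2)
    have h4 := rad_pos hC' (G r)
    by_contra hc
    push Not at hc
    have := mul_nonneg h4.le hc
    linarith
  have hpos : 0 < Real.sin (G l - φ') := by
    have h1 : tc φ' (pt (A '' C) (φ' + π / 2)) ≤ tc φ' (pt (A '' C) (G l)) := by
      obtain ⟨w, hw, hw'⟩ := pt_mem hC' (φ' + π / 2)
      rw [← hw', hGpt]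
      exact (hA.tcle _ _).1 (hlmax w hw)
    rw [tc_pt, tc_pt] at h1
    have h2 : Real.sin (φ' + π / 2 - φ') = 1 := by
      have : φ' + π / 2 - φ' = π / 2 := by ring
      rw [this, Real.sin_pi_div_two]
    rw [h2] at h1
    have h3 := rad_pos hC' (φ' + π / 2)
    have h4 := rad_pos hC' (G l)
    by_contra hc
    push Not at hc
    have := mul_nonpos_of_nonneg_of_nonpos h4.le hc
    linarith
  obtain ⟨k, hk1, hk2⟩ := neg_window hneg
  have hrl : r < l := by linarith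
  have hlr : l < r + 2 * π := by linarith
  have hGrl : G r < G l := G.strictMono hrl
  have hGlr : G l < G r + 2 * π := by rw [← hGper]; exact G.strictMono hlr
  have hpos' : 0 < Real.sin (G l - k * (2 * π) - φ') := by
    have h1 : G l - k * (2 * π) - φ' = (G l - φ') - k * (2 * π) := by ring
    rw [h1, Real.sin_sub_int_mul_two_pi]
    exact hpos
  obtain ⟨hk3, hk4⟩ := pos_window hpos' (by linarith) (by linarith)
  refine ⟨k, fun x => ?_⟩
  -- the claim on an open interval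
  have hA1 : ∀ y ∈ Ioo (l - 2 * π) r, L (G y - k * (2 * π)) = G (F y) - k * (2 * π) := by
    intro y hy
    have h1 : r < F y := by rw [← hFr]; exact hF.anti hy.2
    have h2 : F y < l := by
      have h3 : F (l - 2 * π) = l := by
        have := hFi l (-1)
        push_cast at this
        have h4 : l + -1 * (2 * π) = l - 2 * π := by ring
        rw [h4, hFl] at this
        linarith
      rw [← h3]
      exact hF.anti hy.1
    have h3 : Phi C y (F y) = φ := (hF.phi y (F y) (by linarith [hy.2]) (by linarith [hy.1])).1 rfl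
    obtain ⟨s, hs0, hs1⟩ := Phi_spec hC (show y < F y by linarith [hy.2])
      (show F y < y + 2 * π by linarith [hy.1])
    rw [h3] at hs1
    obtain ⟨s', hs'0, hs'1⟩ := hA.line (pt C y) s hs0
    rw [← hs1, ← hGpt, ← hGpt] at hs'1
    have hp : ∀ z, pt (A '' C) (z - k * (2 * π)) = pt (A '' C) z := by
      intro z
      have h4 : Function.Periodic (pt (A '' C)) (2 * π) := pt_periodic _
      have h5 := h4.int_mul k (z - k * (2 * π))
      rw [← h5]
      congr 1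
      ring
    rw [← hp (G (F y)), ← hp (G y)] at hs'1
    have hy1 : G y < G (F y) := G.strictMono (by linarith [hy.2])
    have hy2 : G (F y) < G y + 2 * π := by
      rw [← hGper]; exact G.strictMono (by linarith [hy.1])
    have hy3 : G (l - 2 * π) = G l - 2 * π := by
      have := hGi l (-1)
      push_cast at this
      have h4 : l + -1 * (2 * π) = l - 2 * π := by ring
      rw [h4] at this
      linarith
    have hy4 : G l - 2 * π < G y := by rw [← hy3]; exact G.strictMono hy.1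
    have hy5 : G y < G r := G.strictMono hy.2
    have hy6 : G r < G (F y) := G.strictMono h1
    have hy7 : G (F y) < G l := G.strictMono h2
    have hlt : G y - k * (2 * π) < G (F y) - k * (2 * π) := by linarith
    have hlt2 : G (F y) - k * (2 * π) < G y - k * (2 * π) + 2 * π := by linarith
    obtain ⟨s'', hs''0, hs''1⟩ := Phi_spec hC' hlt hlt2
    have hb := A2.bounds hC' hlt hlt2
    have heq : (s' : ℂ) * e φ' =
        (s'' : ℂ) * e (Phi (A '' C) (G y - k * (2 * π)) (G (F y) - k * (2 * π))) := by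
      have := hs'1.symm.trans hs''1
      exact add_left_cancel this
    have hb1 : φ' - π < Phi (A '' C) (G y - k * (2 * π)) (G (F y) - k * (2 * π)) := by
      refine lt_of_lt_of_le ?_ hb.1
      rw [lt_min_iff]
      constructor <;> linarith
    have hb2 : Phi (A '' C) (G y - k * (2 * π)) (G (F y) - k * (2 * π)) < φ' + π := by
      refine lt_of_le_of_lt hb.2 ?_
      rw [max_lt_iff]
      constructor <;> linarith
    have h6 := (A2.polar_inj hs'0 hs''0 heq (by rw [abs_sub_lt_iff]; constructor <;> linarith)).2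
    exact (hL.phi _ _ hlt hlt2).2 h6.symm
  have hcl : IsClosed {y | L (G y - k * (2 * π)) = G (F y) - k * (2 * π)} :=
    isClosed_eq (hLc.comp (hGc.sub continuous_const)) ((hGc.comp hFc).sub continuous_const)
  have hA2 : ∀ y ∈ Icc (l - 2 * π) r, L (G y - k * (2 * π)) = G (F y) - k * (2 * π) := by
    intro y hy
    have h1 : Ioo (l - 2 * π) r ⊆ {y | L (G y - k * (2 * π)) = G (F y) - k * (2 * π)} := hA1
    have h2 := hcl.closure_subset_iff.2 h1
    rw [closure_Ioo (by linarith)] at h2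
    exact h2 hy
  have hA3 : ∀ y ∈ Ico (l - 2 * π) l, L (G y - k * (2 * π)) = G (F y) - k * (2 * π) := by
    intro y hy
    rcases le_or_gt y r with h | h
    · exact hA2 y ⟨hy.1, h⟩
    · have h1 : F y < r := by rw [← hFr]; exact hF.anti h
      have h2 : l - 2 * π < F y := by rw [← hFl]; exact hF.anti hy.2
      have h3 := hA1 (F y) ⟨h2, h1⟩
      rw [hF.inv] at h3
      rw [← h3, hL.inv]
  have hA4 : ∀ y, L (G y - k * (2 * π)) = G (F y) - k * (2 * π) := by
    intro y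
    obtain ⟨j, hj⟩ : ∃ j : ℤ, y - j * (2 * π) ∈ Ico (l - 2 * π) (l - 2 * π + 2 * π) := by
      refine ⟨toIcoDiv Real.two_pi_pos (l - 2 * π) y, ?_⟩
      have := sub_toIcoDiv_zsmul_mem_Ico Real.two_pi_pos (l - 2 * π) y
      simpa [zsmul_eq_mul] using this
    have h1 := hA3 (y - j * (2 * π)) ⟨hj.1, by linarith [hj.2]⟩
    have h2 : y = (y - j * (2 * π)) + j * (2 * π) := by ring
    rw [h2, hGi, hFi]
    have h3 : G (y - j * (2 * π)) + j * (2 * π) - k * (2 * π) =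
        (G (y - j * (2 * π)) - k * (2 * π)) + j * (2 * π) := by ring
    rw [h3, hLi, h1]
    have h4 : F (y - j * (2 * π)) - j * (2 * π) = F (y - j * (2 * π)) + (-j : ℤ) * (2 * π) := by
      push_cast; ring
    rw [h4, hGi]
    push_cast
    ring
  have h1 := hLi (G x - k * (2 * π)) k
  have h2 : G x - k * (2 * π) + k * (2 * π) = G x := by ring
  rw [h2, hA4] at h1
  rw [h1]
  push_cast
  ring

/-- bounds for one turn -/
theorem TT_bounds (hFLX : FLXStmt) (hFLB : FLBStmt) (hMNF : MNFStmt) {C : Set ℂ} (hC : Body C)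
    {φ₀ φ₁ : ℝ} (h0 : NoSeg C φ₀) (h1 : NoSeg C φ₁) (h01 : φ₀ < φ₁) (h10 : φ₁ < φ₀ + π) (x : ℝ) :
    x ≤ TT C φ₀ φ₁ x ∧ TT C φ₀ φ₁ x ≤ x + 2 * π := by
  have hF0 := (hFLX C φ₀ hC h0).1
  have hF1 := (hFLX C φ₁ hC h1).1
  have hπ : NoSeg C (φ₀ + π) := B3.noSeg_add_pi h0
  constructor
  · have h2 := (hMNF C φ₀ φ₁ x hC h0 h1 h01).1
    have h3 := hF1.anti.antitone h2
    rw [hF1.inv] at h3
    exact h3
  · have h2 := (hMNF C φ₁ (φ₀ + π) (fl C φ₀ x) hC h1 hπ h10).1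
    rw [(hFLB C φ₀ hC h0).2.2.1, hF0.inv] at h2
    exact h2

/-- Invariance of the rotation number. -/
theorem gen (hFLX : FLXStmt) (hFLB : FLBStmt) (hRHA : RHAStmt) (hMNF : MNFStmt) {A : ℂ ≃ₜ ℂ}
    {C : Set ℂ} (hC : Body C)
    (hC' : Body (A '' C)) (hs : ∀ θ, A (pt C θ) / e θ ∈ Complex.slitPlane) {φ₀ φ₁ φ₀' φ₁' : ℝ}
    (hA0 : AffP A φ₀ φ₀') (hA1 : AffP A φ₁ φ₁') (hn0 : NoSeg C φ₀) (hn1 : NoSeg C φ₁)
    (h01 : φ₀ < φ₁) (h10 : φ₁ < φ₀ + π) (h01' : φ₀' < φ₁') (h10' : φ₁' < φ₀' + π) :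
    rot (A '' C) φ₀' φ₁' = rot C φ₀ φ₁ := by
  have hπ := Real.pi_pos
  obtain ⟨k0, hk0⟩ := core hFLX hFLB hC hC' hs hA0 hn0
  obtain ⟨k1, hk1⟩ := core hFLX hFLB hC hC' hs hA1 hn1
  have hn0' : NoSeg (A '' C) φ₀' := noSeg_image hA0 hn0
  have hn1' : NoSeg (A '' C) φ₁' := noSeg_image hA1 hn1
  have hL1 := (hFLX (A '' C) φ₁' hC' hn1').1
  set G := GI hC hC' hs with hG
  have hGper : ∀ x, G (x + 2 * π) = G x + 2 * π := GI_per hC hC' hs
  have hT : ∀ x, TT (A '' C) φ₀' φ₁' (G x) = G (TT C φ₀ φ₁ x) + (2 * (k0 - k1) : ℤ) * (2 * π) := by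
    intro x
    show fl (A '' C) φ₁' (fl (A '' C) φ₀' (G x)) = G (fl C φ₁ (fl C φ₀ x)) + _
    rw [hk0]
    have h1 : G (fl C φ₀ x) - (2 * k0 : ℤ) * (2 * π) =
        G (fl C φ₀ x) + (-(2 * k0) : ℤ) * (2 * π) := by push_cast; ring
    rw [h1, anti_int hL1.per, hk1]
    push_cast
    ring
  have hk : k0 = k1 := by
    have h1 := TT_bounds hFLX hFLB hMNF hC hn0 hn1 h01 h10 0
    have h2 := TT_bounds hFLX hFLB hMNF hC' hn0' hn1' h01' h10' (G 0)
    rw [hT] at h2
    have h3 : G 0 ≤ G (TT C φ₀ φ₁ 0) := G.monotone h1.1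
    have h4 : G (TT C φ₀ φ₁ 0) ≤ G 0 + 2 * π := by rw [← hGper]; exact G.monotone h1.2
    have h5 : ((2 * (k0 - k1) : ℤ) : ℝ) ≤ 1 := by
      by_contra hc
      push Not at hc
      nlinarith
    have h6 : (-1 : ℝ) ≤ ((2 * (k0 - k1) : ℤ) : ℝ) := by
      by_contra hc
      push Not at hc
      nlinarith
    have h7 : 2 * (k0 - k1) ≤ 1 := by exact_mod_cast h5
    have h8 : -1 ≤ 2 * (k0 - k1) := by exact_mod_cast h6
    omega
  have hT' : ∀ x, G (TT C φ₀ φ₁ x) = TT (A '' C) φ₀' φ₁' (G x) := by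
    intro x
    rw [hT, hk]
    simp
  have hd := ((hFLB C φ₀ hC hn0).2.2.2.2.2 φ₁ hn1).1
  have hd' := ((hFLB (A '' C) φ₀' hC' hn0').2.2.2.2.2 φ₁' hn1').1
  exact ((hRHA (TT C φ₀ φ₁) hd).2.2.2.2.2.2.2 (TT (A '' C) φ₀' φ₁') G hd' G.monotone hGper
    hT').symm

end LNx

end Pool.XR2
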