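import Pool.Agent.H41.XR2.LN

/-!
# XR2, row LNA: invariance of the rotation number under diagonal maps
-/

set_option autoImplicit false

open MeasureTheory Set Filter Topology Metric
open scoped Real ENNReal

namespace Pool.XR2

open Pool.Agent.H45.XR

namespace LNx

lemma tc_I_e (ψ : ℝ) : tc ψ (Complex.I * e ψ) = 1 := by
  have h := Real.sin_sq_add_cos_sq ψ
  simp only [tc, Complex.mul_im, Complex.mul_re, Complex.I_re, Complex.I_im, e_re, e_im]
  nlinarith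

lemma yc_I_e (ψ : ℝ) : yc ψ (Complex.I * e ψ) = 0 := by
  simp only [yc, Complex.mul_im, Complex.mul_re, Complex.I_re, Complex.I_im, e_re, e_im]
  ring

lemma yc_Dg (ψ a b : ℝ) (z : ℂ) : yc ψ (Dg ψ a b z) = a * yc ψ z := by
  rw [Dg, yc_add, yc_mul, yc_mul, yc_e_self, yc_I_e]
  ring

lemma tc_Dg (ψ a b : ℝ) (z : ℂ) : tc ψ (Dg ψ a b z) = b * tc ψ z := by
  rw [Dg, tc_add, tc_mul, tc_mul, tc_e_self, tc_I_e]
  ring

lemma Dg_add (ψ a b : ℝ) (z w : ℂ) : Dg ψ a b (z + w) = Dg ψ a b z + Dg ψ a b w := by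
  unfold Dg
  rw [yc_add, tc_add]
  push_cast
  ring

lemma Dg_mul (ψ a b s : ℝ) (z : ℂ) : Dg ψ a b (s * z) = s * Dg ψ a b z := by
  unfold Dg
  rw [yc_mul, tc_mul]
  push_cast
  ring

lemma Dg_inv {ψ a b a' b' : ℝ} (ha : a' * a = 1) (hb : b' * b = 1) (z : ℂ) :
    Dg ψ a' b' (Dg ψ a b z) = z := by
  conv_rhs => rw [decomp ψ z]
  rw [Dg, yc_Dg, tc_Dg, ← mul_assoc a' a, ha, one_mul, ← mul_assoc b' b, hb, one_mul]

lemma cont_Dg (ψ a b : ℝ) : Continuous (Dg ψ a b) := by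
  unfold Dg yc tc
  fun_prop

/-- The diagonal map as a homeomorphism. -/
noncomputable def DH (ψ a b : ℝ) (ha : 0 < a) (hb : 0 < b) : ℂ ≃ₜ ℂ where
  toFun := Dg ψ a b
  invFun := Dg ψ a⁻¹ b⁻¹
  left_inv := Dg_inv (inv_mul_cancel₀ ha.ne') (inv_mul_cancel₀ hb.ne')
  right_inv := Dg_inv (mul_inv_cancel₀ ha.ne') (mul_inv_cancel₀ hb.ne')
  continuous_toFun := cont_Dg ψ a b
  continuous_invFun := cont_Dg ψ a⁻¹ b⁻¹

/-- The determinant. -/
def cr (u v : ℂ) : ℝ := u.re * v.im - u.im * v.re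

lemma cr_eq (ψ : ℝ) (u v : ℂ) : cr u v = yc ψ u * tc ψ v - tc ψ u * yc ψ v := by
  have h := Real.sin_sq_add_cos_sq ψ
  unfold cr yc tc
  linear_combination (-(u.re * v.im - u.im * v.re)) * h

lemma tc_eq_cr (φ : ℝ) (z : ℂ) : tc φ z = cr (e φ) z := by
  unfold tc cr
  rw [e_re, e_im]

lemma tc_image {φ φ' ψ a b s : ℝ} (h : Dg ψ a b (e φ) = s * e φ') (z : ℂ) :
    s * tc φ' (Dg ψ a b z) = a * b * tc φ z := by
  have h1 : s * tc φ' (Dg ψ a b z) = cr (Dg ψ a b (e φ)) (Dg ψ a b z) := by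
    rw [h, tc_eq_cr]
    simp only [cr, Complex.mul_re, Complex.mul_im, Complex.ofReal_re, Complex.ofReal_im]
    ring
  rw [h1, tc_eq_cr φ z, cr_eq ψ, cr_eq ψ (e φ) z, yc_Dg, tc_Dg, yc_Dg, tc_Dg]
  ring

lemma affP_Dg {φ φ' ψ a b s : ℝ} (ha : 0 < a) (hb : 0 < b) (hs : 0 < s)
    (h : Dg ψ a b (e φ) = s * e φ') : AffP (DH ψ a b ha hb) φ φ' := by
  have hab : 0 < a * b := mul_pos ha hb
  refine ⟨fun v w => ?_, fun v t ht => ⟨t * s, mul_pos ht hs, ?_⟩⟩
  · show tc φ v ≤ tc φ w ↔ tc φ' (Dg ψ a b v) ≤ tc φ' (Dg ψ a b w)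
    have hv := tc_image h v
    have hw := tc_image h w
    constructor
    · intro hle
      have h1 := mul_le_mul_of_nonneg_left hle hab.le
      rw [← hv, ← hw] at h1
      exact le_of_mul_le_mul_left h1 hs
    · intro hle
      have h1 := mul_le_mul_of_nonneg_left hle hs.le
      rw [hv, hw] at h1
      exact le_of_mul_le_mul_left h1 hab
  · show Dg ψ a b (v + t * e φ) = Dg ψ a b v + ((t * s : ℝ) : ℂ) * e φ'
    rw [Dg_add, Dg_mul, h]
    push_cast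
    ring

lemma body_Dg {C : Set ℂ} (hC : Body C) {ψ a b : ℝ} (ha : 0 < a) (hb : 0 < b) :
    Body (Dg ψ a b '' C) := by
  refine ⟨?_, hC.cpt.image (cont_Dg ψ a b), ?_⟩
  · rintro _ ⟨x, hx, rfl⟩ _ ⟨y, hy, rfl⟩ s t hs ht hst
    refine ⟨s • x + t • y, hC.conv hx hy hs ht hst, ?_⟩
    rw [Dg_add, Complex.real_smul, Complex.real_smul, Dg_mul, Dg_mul, Complex.real_smul,
      Complex.real_smul]
  · have h1 : (DH ψ a b ha hb) '' interior C = interior ((DH ψ a b ha hb) '' C) :=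
      (DH ψ a b ha hb).image_interior C
    have h2 : (0 : ℂ) ∈ (DH ψ a b ha hb) '' interior C := by
      refine ⟨0, hC.zero, ?_⟩
      show Dg ψ a b 0 = 0
      simp [Dg]
    rw [h1] at h2
    exact h2

theorem lna (hFLX : FLXStmt) (hFLB : FLBStmt) (hRHA : RHAStmt) (hMNF : MNFStmt) : LNAStmt := by
  intro C φ₀ φ₁ φ₀' φ₁' ψ a b s₀ s₁ hC hn0 hn1 h01 h10 h01' h10' ha hb hs0 hs1 he0 he1
  have hA0 := affP_Dg ha hb hs0 he0
  have hA1 := affP_Dg ha hb hs1 he1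
  have hB : Body ((DH ψ a b ha hb) '' C) := body_Dg hC ha hb
  have hs : ∀ θ, (DH ψ a b ha hb) (pt C θ) / e θ ∈ Complex.slitPlane := by
    intro θ
    show Dg ψ a b (pt C θ) / e θ ∈ Complex.slitPlane
    rw [Complex.mem_slitPlane_iff]
    left
    have h1 : ∀ w : ℂ, (w / e θ).re = yc θ w := by
      intro w
      have h2 : (e θ)⁻¹ = ⟨Real.cos θ, -Real.sin θ⟩ := by
        rw [inv_eq_of_mul_eq_one_right]
        have h3 := Real.sin_sq_add_cos_sq θ
        apply Complex.ext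
        · simp only [Complex.mul_re, e_re, e_im, Complex.one_re]
          nlinarith
        · simp only [Complex.mul_im, e_re, e_im, Complex.one_im]
          ring
      rw [div_eq_mul_inv, h2, Complex.mul_re]
      unfold yc
      ring
    rw [h1, pt, Dg_mul, yc_mul]
    refine mul_pos (rad_pos hC θ) ?_
    rw [Dg, yc_add, yc_mul, yc_mul, yc_e, yc_e, tc_e]
    have h2 : yc θ (Complex.I * e ψ) = Real.sin (θ - ψ) := by
      simp only [yc, Complex.mul_im, Complex.mul_re, Complex.I_re, Complex.I_im, e_re, e_im,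
        Real.sin_sub]
      ring
    have h3 : Real.cos (ψ - θ) = Real.cos (θ - ψ) := by
      rw [← Real.cos_neg]; congr 1; ring
    rw [h2, h3]
    have h4 := Real.sin_sq_add_cos_sq (θ - ψ)
    by_cases h5 : Real.cos (θ - ψ) = 0
    · have h6 : Real.sin (θ - ψ) ^ 2 = 1 := by rw [h5] at h4; linarith
      nlinarith
    · have h6 : 0 < Real.cos (θ - ψ) ^ 2 := by positivity
      have h7 : 0 ≤ Real.sin (θ - ψ) ^ 2 := sq_nonneg _
      nlinarith [mul_pos ha h6, mul_nonneg hb.le h7]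
  exact ⟨hB, noSeg_image hA0 hn0, noSeg_image hA1 hn1,
    gen hFLX hFLB hRHA hMNF hC hB hs hA0 hA1 hn0 hn1 h01 h10 h01' h10'⟩

end LNx

theorem t_lna (hFLX : FLXStmt) (hFLB : FLBStmt) (hRHA : RHAStmt) (hMNF : MNFStmt) : LNAStmt :=
  LNx.lna hFLX hFLB hRHA hMNF

end Pool.XR2
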