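import Pool.Agent.H41.XR2.LN

/-!
# XR2, row LNB: invariance of the rotation number under translations
-/

set_option autoImplicit false

open MeasureTheory Set Filter Topology Metric
open scoped Real ENNReal

namespace Pool.XR2

open Pool.Agent.H45.XR

namespace LNx

lemma tr_image (C : Set ℂ) (z : ℂ) : (Homeomorph.subRight z) '' C = tr C z := by
  ext w
  constructor
  · rintro ⟨v, hv, rfl⟩
    show v - z + z ∈ C
    rwa [sub_add_cancel]
  · intro hw
    exact ⟨w + z, hw, by show w + z - z = w; ring⟩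

lemma affP_sub (φ : ℝ) (z : ℂ) : AffP (Homeomorph.subRight z) φ φ := by
  refine ⟨fun v w => ?_, fun v s hs => ⟨s, hs, ?_⟩⟩
  · show tc φ v ≤ tc φ w ↔ tc φ (v - z) ≤ tc φ (w - z)
    rw [tc_sub, tc_sub]
    constructor <;> intro h <;> linarith
  · show v + s * e φ - z = v - z + s * e φ
    ring

theorem lnb (hFLX : FLXStmt) (hFLB : FLBStmt) (hRHA : RHAStmt) (hMNF : MNFStmt) : LNBStmt := by
  intro C φ₀ φ₁ z hC hn0 hn1 h01 h10 hz
  have hB : Body (tr C z) := by
    refine ⟨convex_tr hC.conv z, compact_tr hC.cpt z, ?_⟩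
    rw [interior_tr, mem_tr, zero_add]
    exact hz
  refine ⟨hB, noSeg_tr hn0, noSeg_tr hn1, ?_⟩
  have hB' : Body ((Homeomorph.subRight z) '' C) := by rw [tr_image]; exact hB
  have hs : ∀ θ, (Homeomorph.subRight z) (pt C θ) / e θ ∈ Complex.slitPlane := by
    intro θ
    show (pt C θ - z) / e θ ∈ Complex.slitPlane
    by_contra hc
    rw [Complex.mem_slitPlane_iff, not_or, not_lt, not_not] at hc
    obtain ⟨h1, h2⟩ := hc
    set w := (pt C θ - z) / e θ with hw
    have h3 : w = ((w.re : ℝ) : ℂ) := by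
      apply Complex.ext
      · simp
      · simp [h2]
    have h4 : pt C θ - z = w * e θ := by
      rw [hw, div_mul_cancel₀ _ (e_ne_zero θ)]
    have h5 : z = ((rad C θ - w.re : ℝ) : ℂ) * e θ := by
      have : z = pt C θ - w * e θ := by rw [← h4]; ring
      rw [this, h3, pt]
      push_cast
      simp only [Complex.ofReal_re]
      ring
    have hr := rad_pos hC θ
    have h6 : (0 : ℝ) ≤ rad C θ - w.re := by linarith
    rw [h5, mem_interior_iff_lt_rad hC θ h6] at hz
    linarith
  have h := gen hFLX hFLB hRHA hMNF hC hB' hs (affP_sub φ₀ z) (affP_sub φ₁ z) hn0 hn1 h01 h10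
    h01 h10
  rw [tr_image] at h
  exact h

end LNx

theorem t_lnb (hFLX : FLXStmt) (hFLB : FLBStmt) (hRHA : RHAStmt) (hMNF : MNFStmt) : LNBStmt :=
  LNx.lnb hFLX hFLB hRHA hMNF

end Pool.XR2
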